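import Mathlib
import Pool.Agent.Helper503_BS.Active

/-!
# Cycles and L-functions over infinite composita

Let `X` be a smooth projective variety of dimension `2 i + 1` over the number field `K`, and let `F/K`
be the compositum of finitely or infinitely many linearly disjoint Galois extensions `F_j` of `K`,
`j ∈ ι`, with arbitrary Galois groups `H j` (solvable or not, finite or infinite); for example, of all
extensions `F_j` with group `A_5` from an infinite linearly disjoint family. Suppose that
`ord_{s=i+1} L(H^(2i+1)(X_M), s) ≤ r` and `rk CH^(i+1)(X_M)_0 ≤ R` for all finite Galois subextensions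
`M/K` of `F/K`. We show that there is a set `J` of at most `(r + R) / 2` indices, such that for all
finite subextensions `M` of `F/K`, normal or not, the order of vanishing and the rank are those over
`M ∩ F_J`, where `F_J` is the compositum of the fields `F_j`, `j ∈ J`, and of the maximal abelian
subextensions `F_j^ab` of all the other `F_j`. So Beilinson's conjecture over all these `M` is
equivalent to the conjecture over the finite subextensions of `F_J/K`: all but at most `(r + R) / 2`
of the nonabelian extensions `F_j` contribute only through their abelian parts.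

More generally, `F/K` may be any Galois extension with group `Γ`, and the `H j` any pairwise commuting
normal subgroups of `Γ`; `F_J` is the fixed field of the commutator subgroups of the `H j`, `j ∉ J`.
If the images of `H j` in the finite quotients `Γ ⧸ W k` of `Γ` have weights `w j` (`Weight`, always
true for `w j = 2`), then the sum of the `w j`, `j ∈ J`, is at most `r + R`. A group `Y` has weight `w`
if `w ≤ 2`, or if it is a quotient of a group of the list `FacO (w - 1)` of the starting files, for
example `SL_n(q)` for odd `q` and `n ≥ max(w, 3)`, or if every Heilbronn function on `Y` of degree less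
than `w` is constant on the commutator subgroup of `Y`.

The hypotheses on the L-functions (with the variable shifted such that the centre is `s = 1`) are the
ones of `Pool.Agent.H541R3.ART.ArtinData (Γ ⧸ W) 1`, `W = Gal(F/F')` for the finite Galois
subextensions `F'/K`: functions `L χ` for the irreducible characters `χ` of `Γ ⧸ W`, the L-functions
of `H^(2i+1)(X) ⊗ χ`, and `Lin H ψ` for the linear characters `ψ` of the subgroups `H`, the L-functions
over the fixed field of `H` twisted by `ψ`, such that `L χ` is meromorphic and not identically zero
near the centre, `Lin H ψ` has no pole there, and `Lin H ψ` is the product of the `L χ ^ ⟨χ|_H, ψ⟩`.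
This is known for all `F/K` for example for abelian varieties with complex multiplication over `K`
and for Fermat varieties over the cyclotomic field of their exponent. `P` is the group
`CH^(i+1)(X_{F'})_0` with its action of `Γ ⧸ W`, assumed to be finitely generated as part of the
conjecture; the rank of the group of elements fixed by `U / W` is the rank of `CH^(i+1)(X_M)_0` for
the fixed field `M` of `U`.
-/

set_option autoImplicit false

open Pool.Agent.H541R3.ART Pool.Agent.Helper503_CP Pool.Agent.Helper503_BS

/-- Let `W k` be a directed family of normal subgroups of finite index of `Γ` (the Galois groups of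
`F` over the finite Galois subextensions of `F/K`), and let `o U` and `ρ U` be the order of vanishing
and the rank over the fixed field of `U`, for the subgroups `U` which contain some `W k`; let
`o (W k) ≤ r` and `ρ (W k) ≤ R` for all `k`. Let `H i` be pairwise commuting normal subgroups of `Γ`
with weights `w i > 0`. Then there is a finite set `J` of indices with `∑ w i ≤ r + R`, `i ∈ J`, such
that with the subgroup `N` generated by the commutator subgroups of the `H i`, `i ∉ J`:
`o U = o (U ⊔ N)` and `ρ U = ρ (U ⊔ N)` for all these `U`; and `o U = ρ U` holds for all these `U` if and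
only if it holds for those which contain `N`. -/
theorem Pool.Agent.Results.MP_6dc9d1_nt.InfiniteComposita.result
    (Γ : Type) [Group Γ] (κ : Type) [Nonempty κ] (W : κ → Subgroup Γ) [∀ k, (W k).Normal]
    (hfin : ∀ k, (W k).index ≠ 0) (hdir : ∀ i j, ∃ k, W k ≤ W i ∧ W k ≤ W j)
    (o ρ : Subgroup Γ → ℕ) (hmod : ∀ k, ModelsL o ρ (W k))
    (r R : ℕ) (hr : ∀ k, o (W k) ≤ r) (hR : ∀ k, ρ (W k) ≤ R)
    (ι : Type) (H : ι → Subgroup Γ) (hn : ∀ i, (H i).Normal)
    (hc : ∀ i j, i ≠ j → ∀ a ∈ H i, ∀ b ∈ H j, a * b = b * a)
    (w : ι → ℕ) (hw0 : ∀ i, 0 < w i)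
    (hw : ∀ i k, Weight (w i) ((H i).map (QuotientGroup.mk' (W k)))) :
    ∃ (J : Finset ι) (N : Subgroup Γ), N = ⨆ i : {i // i ∉ J}, ⁅H i, H i⁆ ∧ N.Normal ∧
      ∑ i ∈ J, w i ≤ r + R ∧
      (∀ k, ∀ U : Subgroup Γ, W k ≤ U → o U = o (U ⊔ N) ∧ ρ U = ρ (U ⊔ N)) ∧
      ((∀ k, ∀ U : Subgroup Γ, W k ≤ U → o U = ρ U) ↔
        ∀ k, ∀ U : Subgroup Γ, W k ≤ U → N ≤ U → o U = ρ U) := by
  obtain ⟨J, hJ, hgood⟩ := active_main (o := o) (ρ := ρ) W hfin hdir hmod hr hR hn hc w hw0 hw
  obtain ⟨k₀⟩ := ‹Nonempty κ›
  refine ⟨J, _, rfl, (hgood k₀).1, hJ, fun k => (hgood k).2, fun h k U hU _ => h k U hU,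
    fun h k U hU => ?_⟩
  obtain ⟨h1, h2⟩ := (hgood k).2 U hU
  rw [h1, h2]
  exact h k _ (hU.trans le_sup_left) le_sup_right
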